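import Mathlib
import Pool.Graph.R_seed8.Results.MP_3489b6_co.MinDegree
import Pool.Agent.KS6_9.MG.Tree

/-!
# The exact value of `ν_d`

For every `d ≥ 2` the infimum `ν_d` of the magneto-spectral height over the finite graphs of
minimum degree at least `d` is `d - 2 √(d - 1)`. In particular `ν_3 = 3 - 2 √2 > 0`. For `d ≥ 3`
the infimum is not attained.
-/

set_option autoImplicit false

open Finset

namespace Pool.Agent.Results.MP_3489b6_co.ExactValue

open Pool.Agent.R1.Mag
open Pool.Agent.Results.MP_3489b6_co.MinDegree (nuInf)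
open Pool.Agent.KS6_9.MG.Tree

open Classical in
/-- transport of the upper bound to `Fin n` -/
lemma nuInf_le (b R : ℕ) (hb : 0 < b) :
    nuInf (b + 1) ≤ (R * (√(b : ℝ) - 1) ^ 2 + 2 * (b + 2)) / (R + 1) := by
  let V := T b R ⊕ Fin (b + 2)
  let e : V ≃ Fin (Fintype.card V) := Fintype.equivFin V
  let G : SimpleGraph (Fin (Fintype.card V)) := (gr b R).comap e.symm
  have hpos : 0 < Fintype.card V := Fintype.card_pos
  have hne : Nonempty (Fin (Fintype.card V)) := ⟨⟨0, hpos⟩⟩
  have hadj : ∀ x y, G.Adj (e x) (e y) ↔ (gr b R).Adj x y := by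
    intro x y
    change (gr b R).Adj (e.symm (e x)) (e.symm (e y)) ↔ _
    rw [e.symm_apply_apply, e.symm_apply_apply]
  have hdeg : ∀ v, b + 1 ≤ G.degree v := by
    intro v
    refine (deg b R (e.symm v)).trans ?_
    rw [← SimpleGraph.card_neighborSet_eq_degree, ← SimpleGraph.card_neighborSet_eq_degree]
    have hi : Function.Injective
        (fun w : (gr b R).neighborSet (e.symm v) =>
          (⟨e w.1, by
            have h := w.2
            rw [SimpleGraph.mem_neighborSet] at h ⊢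
            rw [← hadj, e.apply_symm_apply] at h
            exact h⟩ : G.neighborSet v)) := by
      intro x y hxy
      exact Subtype.ext (e.injective (Subtype.ext_iff.1 hxy))
    exact Fintype.card_le_of_injective _ hi
  have hmem : nu G ∈ {x : ℝ | ∃ (n : ℕ) (G : SimpleGraph (Fin n)), 0 < n ∧
      (∀ v, b + 1 ≤ G.degree v) ∧ x = nu G} := ⟨Fintype.card V, G, hpos, hdeg, rfl⟩
  refine (csInf_le ?_ hmem).trans ?_
  · refine ⟨0, ?_⟩
    rintro x ⟨n, H, hn, -, rfl⟩
    have : Nonempty (Fin n) := ⟨⟨0, hn⟩⟩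
    refine le_nu H (fun _ _ => 1) (isPotential_one H) 0 fun f => ?_
    rw [zero_mul]
    exact Q_nonneg H _ f
  · refine nu_le G _ fun σ hσ => ?_
    have hσ' : IsPotential (gr b R) (fun x y => σ (e x) (e y)) := by
      intro x y hxy
      exact hσ _ _ ((hadj x y).2 hxy)
    obtain ⟨f, hf, hQ⟩ := nu_gr b R hb _ hσ'
    refine ⟨fun i => f (e.symm i), ?_, ?_⟩
    · intro h
      apply hf
      funext x
      have := congrFun h (e x)
      simpa using this
    · have h1 : ∑ i, ‖f (e.symm i)‖ ^ 2 = ∑ x, ‖f x‖ ^ 2 :=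
        Equiv.sum_comp e.symm (fun x => ‖f x‖ ^ 2)
      have h2 : Q G σ (fun i => f (e.symm i)) =
          Q (gr b R) (fun x y => σ (e x) (e y)) f := by
        unfold Q
        congr 1
        rw [← Equiv.sum_comp e]
        refine Finset.sum_congr rfl fun x _ => ?_
        rw [← Equiv.sum_comp e]
        refine Finset.sum_congr rfl fun y _ => ?_
        beta_reduce
        rw [e.symm_apply_apply, e.symm_apply_apply]
        by_cases h : (gr b R).Adj x y
        · rw [if_pos h, if_pos ((hadj x y).2 h)]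
        · rw [if_neg h, if_neg (fun h' => h ((hadj x y).1 h'))]
      rw [h1, h2]
      exact hQ

/-- the limit of the upper bounds -/
lemma lim (b : ℕ) : Filter.Tendsto
    (fun R : ℕ => ((R : ℝ) * (√(b : ℝ) - 1) ^ 2 + 2 * (b + 2)) / (R + 1)) Filter.atTop
    (nhds ((√(b : ℝ) - 1) ^ 2)) := by
  have h1 : ∀ R : ℕ, ((R : ℝ) * (√(b : ℝ) - 1) ^ 2 + 2 * (b + 2)) / (R + 1) =
      (√(b : ℝ) - 1) ^ 2 + (2 * (b + 2) - (√(b : ℝ) - 1) ^ 2) * (1 / ((R : ℝ) + 1)) := by
    intro R
    have : (R : ℝ) + 1 ≠ 0 := by positivity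
    field_simp
    ring
  simp_rw [h1]
  have h2 := (tendsto_one_div_add_atTop_nhds_zero_nat (𝕜 := ℝ)).const_mul
    (2 * ((b : ℝ) + 2) - (√(b : ℝ) - 1) ^ 2)
  have h3 := h2.const_add ((√(b : ℝ) - 1) ^ 2)
  rw [mul_zero, add_zero] at h3
  exact h3

open Classical in
/-- For every `d ≥ 2`, the infimum `ν_d` of the magneto-spectral height over the finite graphs of
minimum degree at least `d` is `d - 2 √(d - 1)`; for `d ≥ 3` no finite graph attains it. In
particular `ν_3 = 3 - 2 √2 > 0`. -/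
theorem result :
    (∀ d : ℕ, 2 ≤ d → nuInf d = (d : ℝ) - 2 * √((d : ℝ) - 1)) ∧
    (nuInf 3 = 3 - 2 * √2 ∧ 0 < nuInf 3) ∧
    (∀ d : ℕ, 3 ≤ d → ∀ (V : Type) [Fintype V] [Nonempty V] (G : SimpleGraph V),
      (∀ v, d ≤ G.degree v) → nuInf d < nu G) := by
  have hmain : ∀ d : ℕ, 2 ≤ d → nuInf d = (d : ℝ) - 2 * √((d : ℝ) - 1) := by
    intro d hd
    refine le_antisymm ?_ ?_
    · obtain ⟨b, rfl⟩ : ∃ b, d = b + 1 := ⟨d - 1, by omega⟩
      have hb : 0 < b := by omega
      have h1 := ge_of_tendsto' (lim b) (fun R => nuInf_le b R hb)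
      have h2 : (√(b : ℝ) - 1) ^ 2 = ((b + 1 : ℕ) : ℝ) - 2 * √(((b + 1 : ℕ) : ℝ) - 1) := by
        have h3 : ((b + 1 : ℕ) : ℝ) - 1 = b := by push_cast; ring
        rw [h3, sub_sq, Real.sq_sqrt (Nat.cast_nonneg b)]
        push_cast
        ring
      rwa [h2] at h1
    · rcases Nat.lt_or_ge 2 d with h | h
      · exact Pool.Agent.Results.MP_3489b6_co.MinDegree.result.2.1 d h
      · obtain rfl : d = 2 := le_antisymm h hd
        have h1 : ((2 : ℕ) : ℝ) - 2 * √(((2 : ℕ) : ℝ) - 1) = 0 := by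
          have : ((2 : ℕ) : ℝ) - 1 = 1 := by norm_num
          rw [this, Real.sqrt_one]
          norm_num
        rw [h1]
        refine le_csInf (Pool.Agent.Results.MP_3489b6_co.MinDegree.nonempty_set 2) ?_
        rintro x ⟨n, H, hn, -, rfl⟩
        have : Nonempty (Fin n) := ⟨⟨0, hn⟩⟩
        refine le_nu H (fun _ _ => 1) (isPotential_one H) 0 fun f => ?_
        rw [zero_mul]
        exact Q_nonneg H _ f
  refine ⟨hmain, ⟨?_, Pool.Agent.Results.MP_3489b6_co.MinDegree.result.2.2⟩, ?_⟩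
  · rw [hmain 3 (by norm_num)]
    norm_num
  · intro d hd V _ _ G hG
    rw [hmain d (by omega)]
    exact Pool.Agent.Results.MP_3489b6_co.MinDegree.result.1 d hd V G hG

end Pool.Agent.Results.MP_3489b6_co.ExactValue
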